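import Pool.Agent.J6H10.GI.Stm
import Pool.Agent.Y293.SF.SQF

/-! # GI-SQ: windows of length `H ≤ 1` -/

set_option autoImplicit false

open MeasureTheory Set Filter Topology

namespace Pool.Agent.J6H84.GI

open Pool.Agent.J6H10.GI

noncomputable def mu (n : ℕ) : ℝ := ((ArithmeticFunction.moebius n : ℤ) : ℝ)

lemma M_sq {X x H : ℝ} (hX : 1 ≤ X) (hx1 : X ≤ x) (hx2 : x ≤ 2 * X) (hH : 0 < H) (hH1 : H ≤ 1)
    (N : ℕ) (hN : 2 * X + 2 ≤ N) :
    M x H ^ 2 = ∑ n ∈ Finset.range N,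
      (mu n) ^ 2 * (Ioo ((n : ℝ) - H / 2) (n + H / 2)).indicator (fun _ => (1 : ℝ)) x := by
  classical
  have hmem : ∀ n : ℕ, x ∈ Ioo ((n : ℝ) - H / 2) (n + H / 2) ↔ |(n : ℝ) - x| < H / 2 := by
    intro n
    rw [abs_lt, mem_Ioo]
    constructor
    · rintro ⟨h1, h2⟩
      constructor <;> linarith
    · rintro ⟨h1, h2⟩
      constructor <;> linarith
  by_cases h : ∃ n0 : ℕ, |(n0 : ℝ) - x| < H / 2
  · obtain ⟨n0, h0⟩ := h
    have huniq : ∀ n : ℕ, |(n : ℝ) - x| < H / 2 → n = n0 := by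
      intro n hn
      rw [abs_lt] at h0 hn
      have h1 : (n : ℝ) < n0 + 1 := by linarith
      have h2 : (n0 : ℝ) < n + 1 := by linarith
      have h1' : n < n0 + 1 := by exact_mod_cast h1
      have h2' : n0 < n + 1 := by exact_mod_cast h2
      omega
    have hs : (Finset.range (⌈x + H⌉₊ + 1)).filter (fun n : ℕ => |(n : ℝ) - x| < H / 2) = {n0} := by
      ext n
      simp only [Finset.mem_filter, Finset.mem_range, Finset.mem_singleton]
      constructor
      · rintro ⟨-, h2⟩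
        exact huniq n h2
      · rintro rfl
        refine ⟨?_, h0⟩
        have h1 : (n : ℝ) ≤ x + H := by
          rw [abs_lt] at h0
          linarith
        have h2 : (n : ℝ) ≤ ⌈x + H⌉₊ := h1.trans (Nat.le_ceil _)
        have : n ≤ ⌈x + H⌉₊ := by exact_mod_cast h2
        omega
    unfold M
    rw [hs, Finset.sum_singleton, Finset.sum_eq_single n0]
    · rw [indicator_of_mem ((hmem n0).2 h0)]
      simp [mu]
    · intro n _ hn
      rw [indicator_of_notMem (fun hc => hn (huniq n ((hmem n).1 hc)))]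
      simp
    · intro hn
      exfalso
      apply hn
      rw [Finset.mem_range]
      rw [abs_lt] at h0
      have h1 : (n0 : ℝ) < N := by linarith
      exact_mod_cast h1
  · push Not at h
    have hs : (Finset.range (⌈x + H⌉₊ + 1)).filter (fun n : ℕ => |(n : ℝ) - x| < H / 2) = ∅ := by
      rw [Finset.filter_eq_empty_iff]
      intro n _
      exact not_lt.2 (h n)
    unfold M
    rw [hs, Finset.sum_empty]
    symm
    rw [Finset.sum_eq_zero]
    · norm_num
    · intro n _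
      rw [indicator_of_notMem (fun hc => absurd ((hmem n).1 hc) (not_lt.2 (h n)))]
      simp

/-- the length of the window inside `[X, 2X]` -/
noncomputable def vv (X H : ℝ) (n : ℕ) : ℝ :=
  ∫ x in X..2 * X, (Ioo ((n : ℝ) - H / 2) (n + H / 2)).indicator (fun _ => (1 : ℝ)) x

lemma ind_int (a b c d : ℝ) :
    IntervalIntegrable (fun x => (Ioo c d).indicator (fun _ => (1 : ℝ)) x) volume a b := by
  apply MeasureTheory.IntegrableOn.intervalIntegrable
  exact (integrableOn_const (by simp)).indicator measurableSet_Ioo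

lemma vv_eq {X H : ℝ} (hX : 0 ≤ X) (n : ℕ) : vv X H n =
    (volume (Ioo ((n : ℝ) - H / 2) (n + H / 2) ∩ Ioc X (2 * X))).toReal := by
  unfold vv
  rw [intervalIntegral.integral_of_le (by linarith), integral_indicator measurableSet_Ioo,
    setIntegral_const, smul_eq_mul, mul_one]
  unfold Measure.real
  rw [Measure.restrict_apply measurableSet_Ioo]

lemma vv_nonneg {X H : ℝ} (hX : 0 ≤ X) (n : ℕ) : 0 ≤ vv X H n := by
  rw [vv_eq hX]
  exact ENNReal.toReal_nonneg

lemma vv_le {X H : ℝ} (hX : 0 ≤ X) (hH : 0 < H) (n : ℕ) : vv X H n ≤ H := by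
  rw [vv_eq hX]
  have h1 : volume (Ioo ((n : ℝ) - H / 2) (n + H / 2) ∩ Ioc X (2 * X)) ≤ ENNReal.ofReal H := by
    refine (measure_mono inter_subset_left).trans (le_of_eq ?_)
    rw [Real.volume_Ioo]
    congr 1
    ring
  exact (ENNReal.toReal_mono ENNReal.ofReal_ne_top h1).trans (le_of_eq (ENNReal.toReal_ofReal hH.le))

lemma vv_full {X H : ℝ} (hX : 0 ≤ X) (hH : 0 < H) (hH1 : H ≤ 1) (n : ℕ) (h1 : X + 1 / 2 ≤ n)
    (h2 : (n : ℝ) ≤ 2 * X - 1 / 2) : vv X H n = H := by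
  rw [vv_eq hX]
  have : Ioo ((n : ℝ) - H / 2) (n + H / 2) ∩ Ioc X (2 * X) = Ioo ((n : ℝ) - H / 2) (n + H / 2) := by
    rw [inter_eq_left]
    rintro x ⟨a, b⟩
    constructor <;> linarith
  rw [this, Real.volume_Ioo]
  have e : (n : ℝ) + H / 2 - (n - H / 2) = H := by ring
  rw [e, ENNReal.toReal_ofReal hH.le]

lemma vv_zero {X H : ℝ} (hX : 0 ≤ X) (hH : 0 < H) (hH1 : H ≤ 1) (n : ℕ)
    (h : (n : ℝ) ≤ X - 1 / 2 ∨ 2 * X + 1 / 2 ≤ n) : vv X H n = 0 := by
  rw [vv_eq hX]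
  have : Ioo ((n : ℝ) - H / 2) (n + H / 2) ∩ Ioc X (2 * X) = ∅ := by
    rw [Set.eq_empty_iff_forall_notMem]
    rintro x ⟨⟨a, b⟩, ⟨c, d⟩⟩
    rcases h with h | h <;> linarith
  rw [this]
  simp

lemma mu_sq_eq (n : ℕ) : (mu n) ^ 2 = if Squarefree n then 1 else 0 := by
  unfold mu
  have h := ArithmeticFunction.moebius_sq (n := n)
  have h2 : (((ArithmeticFunction.moebius n : ℤ) : ℝ)) ^ 2 =
      (((ArithmeticFunction.moebius n) ^ 2 : ℤ) : ℝ) := by push_cast; ring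
  rw [h2, h]
  split_ifs <;> simp

/-- counting function of the squarefree numbers -/
noncomputable def Q (n : ℕ) : ℝ := (((Finset.Icc 1 n).filter Squarefree).card : ℝ)

lemma Q_eq (n : ℕ) : Q n = ∑ m ∈ Finset.Icc 1 n, (mu m) ^ 2 := by
  classical
  unfold Q
  rw [Finset.card_filter]
  push_cast
  refine Finset.sum_congr rfl fun m _ => ?_
  rw [mu_sq_eq]

lemma Q_sub {a b : ℕ} (hab : a ≤ b) : Q b - Q a = ∑ m ∈ Finset.Ioc a b, (mu m) ^ 2 := by
  rw [Q_eq, Q_eq]
  have h1 : Finset.Icc 1 b = Finset.Icc 1 a ∪ Finset.Ioc a b := by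
    ext m
    simp only [Finset.mem_union, Finset.mem_Icc, Finset.mem_Ioc]
    omega
  rw [h1, Finset.sum_union]
  · ring
  · rw [Finset.disjoint_left]
    intro m h2 h3
    simp only [Finset.mem_Icc, Finset.mem_Ioc] at h2 h3
    omega

lemma V_eq {X H : ℝ} (hX : 1 ≤ X) (hH : 0 < H) (hH1 : H ≤ 1) (N : ℕ) (hN : 2 * X + 2 ≤ N) :
    V X H = (1 / X) * ∑ n ∈ Finset.range N, (mu n) ^ 2 * vv X H n := by
  unfold V
  congr 1
  have h1 : ∫ x in X..2 * X, M x H ^ 2 = ∫ x in X..2 * X, ∑ n ∈ Finset.range N,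
      (mu n) ^ 2 * (Ioo ((n : ℝ) - H / 2) (n + H / 2)).indicator (fun _ => (1 : ℝ)) x := by
    refine intervalIntegral.integral_congr fun x hx => ?_
    rw [uIcc_of_le (by linarith)] at hx
    exact M_sq hX hx.1 hx.2 hH hH1 N hN
  rw [h1, intervalIntegral.integral_finset_sum]
  · refine Finset.sum_congr rfl fun n _ => ?_
    rw [intervalIntegral.integral_const_mul]
    rfl
  · intro n _
    exact (ind_int _ _ _ _).const_mul _

lemma key {X H : ℝ} (hX : 4 ≤ X) (hH : 0 < H) (hH1 : H ≤ 1) :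
    |V X H / H * X - (Q ⌊2 * X⌋₊ - Q ⌊X⌋₊)| ≤ 4 := by
  classical
  have hX0 : 0 ≤ X := by linarith
  set a := ⌊X⌋₊ with ha
  set b := ⌊2 * X⌋₊ with hb
  have ha1 : (a : ℝ) ≤ X := Nat.floor_le hX0
  have ha2 : X < a + 1 := Nat.lt_floor_add_one X
  have hb1 : (b : ℝ) ≤ 2 * X := Nat.floor_le (by linarith)
  have hb2 : 2 * X < b + 1 := Nat.lt_floor_add_one (2 * X)
  have hab : a + 2 ≤ b := by
    have : (a : ℝ) + 2 < b + 1 := by linarith
    have h2 : a + 2 < b + 1 := by exact_mod_cast this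
    omega
  set N := b + 4 with hN
  have hN1 : 2 * X + 2 ≤ (N : ℝ) := by
    rw [hN]
    push_cast
    linarith
  rw [V_eq (by linarith) hH hH1 N hN1, Q_sub (by omega : a ≤ b)]
  have h1 : (1 / X) * (∑ n ∈ Finset.range N, (mu n) ^ 2 * vv X H n) / H * X =
      ∑ n ∈ Finset.range N, (mu n) ^ 2 * (vv X H n / H) := by
    have hX1 : X ≠ 0 := by linarith
    have e : ∑ n ∈ Finset.range N, (mu n) ^ 2 * (vv X H n / H) =
        (∑ n ∈ Finset.range N, (mu n) ^ 2 * vv X H n) / H := by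
      rw [Finset.sum_div]
      exact Finset.sum_congr rfl fun n _ => by ring
    rw [e]
    field_simp
  have h2 : ∑ m ∈ Finset.Ioc a b, (mu m) ^ 2 =
      ∑ n ∈ Finset.range N, (mu n) ^ 2 * (if n ∈ Finset.Ioc a b then 1 else 0) := by
    have h3 : Finset.Ioc a b = (Finset.range N).filter (fun n => n ∈ Finset.Ioc a b) := by
      ext n
      simp only [Finset.mem_filter, Finset.mem_range, Finset.mem_Ioc]
      omega
    conv_lhs => rw [h3]
    rw [Finset.sum_filter]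
    exact Finset.sum_congr rfl fun n _ => by split_ifs <;> simp
  rw [h1, h2, ← Finset.sum_sub_distrib]
  set F : Finset ℕ := {a, a + 1, b, b + 1} with hF
  have hF4 : F.card ≤ 4 := Finset.card_le_four
  have hterm : ∀ n ∈ Finset.range N, |(mu n) ^ 2 * (vv X H n / H) -
      (mu n) ^ 2 * (if n ∈ Finset.Ioc a b then 1 else 0)| ≤ if n ∈ F then 1 else 0 := by
    intro n _
    have hm0 : 0 ≤ (mu n) ^ 2 := sq_nonneg _
    have hm1 : (mu n) ^ 2 ≤ 1 := by
      rw [mu_sq_eq]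
      split_ifs <;> norm_num
    have hv0 : 0 ≤ vv X H n / H := div_nonneg (vv_nonneg hX0 n) hH.le
    have hv1 : vv X H n / H ≤ 1 := by
      rw [div_le_one hH]
      exact vv_le hX0 hH n
    by_cases hn : n ∈ F
    · rw [if_pos hn, ← mul_sub, abs_mul, abs_of_nonneg hm0]
      have h3 : |vv X H n / H - (if n ∈ Finset.Ioc a b then 1 else 0)| ≤ 1 := by
        split_ifs
        · rw [abs_le]
          constructor <;> linarith
        · rw [abs_le]
          constructor <;> linarith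
      calc (mu n) ^ 2 * |vv X H n / H - (if n ∈ Finset.Ioc a b then 1 else 0)| ≤ 1 * 1 :=
            mul_le_mul hm1 h3 (abs_nonneg _) zero_le_one
        _ = 1 := one_mul 1
    · rw [if_neg hn]
      have hn' : n ≠ a ∧ n ≠ a + 1 ∧ n ≠ b ∧ n ≠ b + 1 := by
        simp only [hF, Finset.mem_insert, Finset.mem_singleton, not_or] at hn
        exact hn
      obtain ⟨n1, n2, n3, n4⟩ := hn'
      suffices hs : vv X H n / H = if n ∈ Finset.Ioc a b then 1 else 0 by
        rw [hs, sub_self, abs_zero]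
      rcases lt_or_ge n a with h4 | h4
      · have h5 : (n : ℝ) + 1 ≤ a := by exact_mod_cast h4
        rw [vv_zero hX0 hH hH1 n (Or.inl (by linarith)), if_neg]
        · simp
        · rw [Finset.mem_Ioc]
          omega
      · rcases lt_or_ge n b with h6 | h6
        · have h7 : a + 2 ≤ n := by omega
          have h8 : (a : ℝ) + 2 ≤ n := by exact_mod_cast h7
          have h9 : (n : ℝ) + 1 ≤ b := by exact_mod_cast h6
          rw [vv_full hX0 hH hH1 n (by linarith) (by linarith), if_pos]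
          · exact div_self hH.ne'
          · rw [Finset.mem_Ioc]
            omega
        · have h7 : b + 2 ≤ n := by omega
          have h8 : (b : ℝ) + 2 ≤ n := by exact_mod_cast h7
          rw [vv_zero hX0 hH hH1 n (Or.inr (by linarith)), if_neg]
          · simp
          · rw [Finset.mem_Ioc]
            omega
  refine (Finset.abs_sum_le_sum_abs _ _).trans ((Finset.sum_le_sum hterm).trans ?_)
  rw [← Finset.sum_filter, Finset.sum_const, nsmul_eq_mul, mul_one]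
  have h5 : ((Finset.range N).filter (fun n => n ∈ F)).card ≤ F.card :=
    Finset.card_le_card fun n hn => (Finset.mem_filter.1 hn).2
  have h6 : ((Finset.range N).filter (fun n => n ∈ F)).card ≤ 4 := h5.trans hF4
  exact_mod_cast h6

lemma Q_tendsto : Tendsto (fun n : ℕ => Q n / n) atTop (𝓝 (6 / Real.pi ^ 2)) := by
  classical
  have h := Pool.Agent.Y293.SF.t_SQF
  unfold Pool.Agent.Y859.SF.S_SQF at h
  refine h.congr fun n => ?_
  unfold Q
  congr 3

lemma Q_real : Tendsto (fun X : ℝ => Q ⌊X⌋₊ / X) atTop (𝓝 (6 / Real.pi ^ 2)) := by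
  have h1 : Tendsto (fun X : ℝ => Q ⌊X⌋₊ / (⌊X⌋₊ : ℝ)) atTop (𝓝 (6 / Real.pi ^ 2)) :=
    Q_tendsto.comp tendsto_nat_floor_atTop
  have h2 : Tendsto (fun X : ℝ => (⌊X⌋₊ : ℝ) / X) atTop (𝓝 1) := tendsto_nat_floor_div_atTop
  have h3 := h1.mul h2
  rw [mul_one] at h3
  refine h3.congr' ?_
  filter_upwards [eventually_ge_atTop (1 : ℝ)] with X hX
  have : (0 : ℝ) < ⌊X⌋₊ := by exact_mod_cast Nat.floor_pos.2 hX
  field_simp

theorem t_SQ : S_SQ := by
  intro ε hε
  have h1 := Q_real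
  have h2 : Tendsto (fun X : ℝ => Q ⌊2 * X⌋₊ / (2 * X)) atTop (𝓝 (6 / Real.pi ^ 2)) :=
    Q_real.comp (tendsto_id.const_mul_atTop (by norm_num : (0 : ℝ) < 2))
  have h3 : Tendsto (fun X : ℝ => 2 * (Q ⌊2 * X⌋₊ / (2 * X)) - Q ⌊X⌋₊ / X) atTop
      (𝓝 (2 * (6 / Real.pi ^ 2) - 6 / Real.pi ^ 2)) := (h2.const_mul 2).sub h1
  have h4 : 2 * (6 / Real.pi ^ 2) - 6 / Real.pi ^ 2 = 6 / Real.pi ^ 2 := by ring
  rw [h4, Metric.tendsto_atTop] at h3
  obtain ⟨X1, hX1⟩ := h3 (ε / 2) (by positivity)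
  refine ⟨max X1 (max 4 (8 / ε)), fun X hX H hH hH1 => ?_⟩
  have a1 : X1 ≤ X := (le_max_left _ _).trans hX
  have a2 : 4 ≤ X := (le_max_left _ _).trans ((le_max_right _ _).trans hX)
  have a3 : 8 / ε ≤ X := (le_max_right _ _).trans ((le_max_right _ _).trans hX)
  have hX0 : 0 < X := by linarith
  have b1 := hX1 X a1
  rw [Real.dist_eq] at b1
  have b2 := key a2 hH hH1
  have b3 : |V X H / H - (2 * (Q ⌊2 * X⌋₊ / (2 * X)) - Q ⌊X⌋₊ / X)| ≤ ε / 2 := by
    have e : V X H / H - (2 * (Q ⌊2 * X⌋₊ / (2 * X)) - Q ⌊X⌋₊ / X) =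
        (V X H / H * X - (Q ⌊2 * X⌋₊ - Q ⌊X⌋₊)) / X := by
      field_simp
    rw [e, abs_div, abs_of_pos hX0, div_le_iff₀ hX0]
    refine b2.trans ?_
    rw [div_le_iff₀ hε] at a3
    linarith
  calc |V X H / H - 6 / Real.pi ^ 2| = |(V X H / H - (2 * (Q ⌊2 * X⌋₊ / (2 * X)) - Q ⌊X⌋₊ / X)) +
        ((2 * (Q ⌊2 * X⌋₊ / (2 * X)) - Q ⌊X⌋₊ / X) - 6 / Real.pi ^ 2)| := by ring_nf
    _ ≤ _ := abs_add_le _ _
    _ ≤ ε := by linarith

end Pool.Agent.J6H84.GI
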